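import Mathlib

set_option autoImplicit false

namespace Pool.Agent.Results.MP_8c719a_al.Infinite

/-- `LCM(G) = G`. -/
def IsLCM (G : Type) [Group G] : Prop :=
  ∀ x : G, ∀ n : ℕ, 0 < n → ∀ y : G, orderOf (x ^ n * y) ∣ Nat.lcm (orderOf (x ^ n)) (orderOf y)

/-- `G` has a subgroup isomorphic to `F`. -/
def Contains (G F : Type) [Group G] [Group F] : Prop := ∃ H : Subgroup G, Nonempty (H ≃* F)

lemma contains_iff {G F : Type} [Group G] [Group F] :
    Contains G F ↔ ∃ f : F →* G, Function.Injective f :=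
  ⟨fun ⟨H, ⟨e⟩⟩ => ⟨H.subtype.comp e.symm.toMonoidHom, H.subtype_injective.comp e.symm.injective⟩,
    fun ⟨f, hf⟩ => ⟨f.range, ⟨(MonoidHom.ofInjective hf).symm⟩⟩⟩

lemma not_lcm {p : ℕ} [hp : Fact p.Prime] {A B G : Type} [Group A] [CommGroup B] [Group G]
    [Finite G] (hA : ∀ a : A, a ^ p = 1) {x y : A} (hxy : ¬ Commute x y) (hB : IsPGroup p B)
    (hB' : ∀ b : B, b ^ p = 1 → ∃ c, c ^ p = b) (h1 : Contains G A) (h2 : Contains G B)
    (hc : Nat.card G ≤ Nat.card B * p) : ¬ IsLCM G := fun hG => by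
  obtain ⟨f, hf⟩ := contains_iff.mp h1
  obtain ⟨g, hg⟩ := contains_iff.mp h2
  have hgB : IsPGroup p g.range := hB.of_surjective _ g.rangeRestrict_surjective
  have hcB : Nat.card g.range = Nat.card B := (Nat.card_congr (g.ofInjective hg).toEquiv).symm
  have hcomm {u v : G} (hu : u ∈ g.range) (hv : v ∈ g.range) : Commute u v := by
    obtain ⟨u, rfl⟩ := hu
    obtain ⟨v, rfl⟩ := hv
    exact (Commute.all u v).map g
  have hi : g.range.index ≤ p := by
    rw [← g.range.card_mul_index, hcB] at hc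
    exact Nat.le_of_mul_le_mul_left hc (hcB ▸ Nat.card_pos)
  have hd : p ∣ g.range.index := by
    by_contra hd
    obtain ⟨Q, hQ⟩ := (IsPGroup.of_surjective (fun a => ⟨1, by simpa using hA a⟩) _
      f.rangeRestrict_surjective).exists_le_sylow
    obtain ⟨u, rfl⟩ := MulAction.exists_smul_eq G (hgB.toSylow hd) Q
    obtain ⟨a, ha, e1⟩ := hQ ⟨x, rfl⟩
    obtain ⟨b, hb, e2⟩ := hQ ⟨y, rfl⟩
    refine hxy (hf ?_)
    rw [map_mul, map_mul, ← e1, ← e2]
    exact ((hcomm ha hb).map _).eq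
  have hi : g.range.index = p :=
    hi.antisymm (Nat.le_of_dvd (Nat.pos_of_ne_zero Subgroup.FiniteIndex.index_ne_zero) hd)
  obtain ⟨n, hn⟩ := IsPGroup.iff_card.mp hgB
  have hN : g.range.Normal := Subgroup.normal_of_index_eq_minFac_card (by
    rw [← g.range.card_mul_index, hi, hn, ← pow_succ, hp.out.pow_minFac n.succ_ne_zero])
  have key (t a : A) (ht : f t ∉ g.range) : Commute t a := by
    have ht1 : (QuotientGroup.mk (f t) : G ⧸ g.range) ≠ 1 := by
      rwa [Ne, QuotientGroup.eq_one_iff]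
    obtain ⟨j, hj⟩ := mem_zpowers_of_prime_card (p := p) hi ht1 (g' := QuotientGroup.mk (f a))
    obtain ⟨b, hb⟩ : f ((t ^ j)⁻¹ * a) ∈ g.range := by
      rw [map_mul, map_inv, map_zpow, ← QuotientGroup.eq]; exact hj
    obtain ⟨c, rfl⟩ := hB' b (hg (by rw [map_pow, hb, ← map_pow, hA, map_one, map_one]))
    have h3 : (g c * f t * (g c)⁻¹) ^ p = 1 := by rw [conj_pow, ← map_pow, hA]; simp
    have h4 : (f t)⁻¹ ^ p = 1 := by rw [inv_pow, ← map_pow, hA]; simp
    have h5 := (hG (g c * f t * (g c)⁻¹) 1 one_pos (f t)⁻¹).trans (Nat.lcm_dvd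
      (by simpa using orderOf_dvd_of_pow_eq_one h3) (orderOf_dvd_of_pow_eq_one h4))
    rw [orderOf_dvd_iff_pow_eq_one, pow_one, mul_assoc (g c), mul_assoc (g c),
      (hcomm ⟨c, rfl⟩ (hN.conj_mem _ (inv_mem ⟨c, rfl⟩) _)).mul_pow, conj_pow, inv_pow,
      ← map_pow, hb, ← mul_assoc, mul_inv_eq_one, ← mul_assoc, mul_inv_eq_iff_eq_mul,
      ← map_mul, ← map_mul] at h5
    have h6 : Commute t ((t ^ j)⁻¹ * a) := (hf h5).symm
    simpa using ((Commute.refl t).zpow_right j).mul_right h6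
  by_cases hx : f x ∈ g.range
  · by_cases hy : f y ∈ g.range
    · exact hxy (hf (by simpa using (hcomm hx hy).eq))
    exact hxy (key y x hy).symm
  exact hxy (key x y hx)

/-- Heisenberg group. -/
@[ext] structure Heis (R : Type) where
  a : R
  b : R
  s : R

instance {R : Type} [CommRing R] : Group (Heis R) where
  mul x y := ⟨x.a + y.a, x.b + y.b + y.a * x.s, x.s + y.s⟩
  one := ⟨0, 0, 0⟩
  inv x := ⟨-x.a, -x.b + x.a * x.s, -x.s⟩
  mul_assoc x y z := Heis.ext (add_assoc _ _ _) (by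
    change x.b + y.b + y.a * x.s + z.b + z.a * (x.s + y.s) =
      x.b + (y.b + z.b + z.a * y.s) + (y.a + z.a) * x.s
    ring) (add_assoc _ _ _)
  one_mul x := Heis.ext (zero_add _) (by change 0 + x.b + x.a * 0 = x.b; ring) (zero_add _)
  mul_one x := Heis.ext (add_zero _) (by change x.b + 0 + 0 * x.s = x.b; ring) (add_zero _)
  inv_mul_cancel x := Heis.ext (neg_add_cancel _)
    (by change -x.b + x.a * x.s + x.b + x.a * -x.s = 0; ring) (neg_add_cancel _)

lemma Heis.mul_def {R : Type} [CommRing R] (x y : Heis R) :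
    x * y = ⟨x.a + y.a, x.b + y.b + y.a * x.s, x.s + y.s⟩ := rfl

lemma Heis.pow_def {R : Type} [CommRing R] (x : Heis R) (n : ℕ) :
    x ^ n = ⟨n * x.a, n * x.b + n.choose 2 * x.a * x.s, n * x.s⟩ := by
  induction n with
  | zero => simp; rfl
  | succ n ih =>
    rw [pow_succ, ih, Heis.mul_def, Nat.choose_succ_succ' n 1]
    ext <;> simp <;> ring

/-- Wreath product of `M` with `Q`. -/
@[ext] structure Wr (M Q : Type) where
  f : Q → M
  s : Q

instance {M Q : Type} [AddCommGroup M] [AddCommGroup Q] : Group (Wr M Q) where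
  mul x y := ⟨fun i => x.f i + y.f (i + x.s), x.s + y.s⟩
  one := ⟨0, 0⟩
  inv x := ⟨fun i => -x.f (i - x.s), -x.s⟩
  mul_assoc x y z := Wr.ext (funext fun i => by
    change x.f i + y.f (i + x.s) + z.f (i + (x.s + y.s)) =
      x.f i + (y.f (i + x.s) + z.f (i + x.s + y.s))
    rw [add_assoc, add_assoc i]) (add_assoc _ _ _)
  one_mul x := Wr.ext (funext fun i => by change 0 + x.f (i + 0) = x.f i; simp) (zero_add _)
  mul_one x := Wr.ext (funext fun i => add_zero _) (add_zero _)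
  inv_mul_cancel x := Wr.ext (funext fun i => by
    change -x.f (i - x.s) + x.f (i + -x.s) = 0
    simp [sub_eq_add_neg]) (neg_add_cancel _)

/-- For odd `p` there are pairs `{A, B}` of LCM-`p`-groups, of unbounded order, none of whose
minimum covers is an LCM-group. -/
theorem result (p : ℕ) (hp : p.Prime) (hodd : Odd p) (N : ℕ) :
    ∃ (A B : Type) (_ : Group A) (_ : Group B) (_ : Finite A) (_ : Finite B),
      IsPGroup p A ∧ IsPGroup p B ∧ IsLCM A ∧ IsLCM B ∧ N < Nat.card B ∧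
      ∀ (G : Type) [Group G] [Finite G], Contains G A → Contains G B →
        (∀ (G' : Type) [Group G'] [Finite G'], Contains G' A → Contains G' B →
          Nat.card G ≤ Nat.card G') → ¬ IsLCM G := by
  have := Fact.mk hp
  have : NeZero (p ^ (N + 2)) := ⟨pow_ne_zero _ hp.ne_zero⟩
  have hA (x : Heis (ZMod p)) : x ^ p = 1 := by
    have : ((p.choose 2 : ℕ) : ZMod p) = 0 := (ZMod.natCast_eq_zero_iff _ _).mpr
      (hp.dvd_choose_self two_ne_zero (hp.two_le.lt_of_ne fun e => by subst e; contradiction))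
    rw [Heis.pow_def, this]; simp; rfl
  have hc : Nat.card (Multiplicative (ZMod p → ZMod (p ^ (N + 2)))) = p ^ ((N + 2) * p) := by
    simp [pow_mul]
  have hB := IsPGroup.of_card hc
  have : Finite (Heis (ZMod p)) := .of_injective (fun x => (x.a, x.b, x.s)) fun x y h => by
    ext <;> simp_all
  refine ⟨Heis (ZMod p), Multiplicative (ZMod p → ZMod (p ^ (N + 2))), inferInstance,
    inferInstance, this, inferInstance, fun x => ⟨1, by simpa using hA x⟩, hB, fun x n _ y => ?_,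
    fun x n _ y => (Commute.all _ _).orderOf_mul_dvd_lcm, ?_, fun G _ _ h1 h2 h3 => ?_⟩
  · by_cases h : x ^ n = 1
    · simp [h]
    exact (orderOf_dvd_of_pow_eq_one (hA _)).trans
      ((orderOf_eq_prime (hA _) h).symm.dvd.trans (Nat.dvd_lcm_left _ _))
  · rw [hc]
    exact lt_of_le_of_lt (by nlinarith [hp.pos]) (Nat.lt_pow_self hp.one_lt)
  let e : Wr (ZMod (p ^ (N + 2))) (ZMod p) ≃ (ZMod p → ZMod (p ^ (N + 2))) × ZMod p :=
    ⟨fun x => (x.f, x.s), fun x => ⟨x.1, x.2⟩, fun _ => rfl, fun _ => rfl⟩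
  have := Finite.of_equiv _ e.symm
  let ι : ZMod p →+ ZMod (p ^ (N + 2)) := ZMod.lift p ⟨zmultiplesHom _ (p ^ (N + 1)), by
    rw [zmultiplesHom_apply, natCast_zsmul, nsmul_eq_mul, ← pow_succ', ← Nat.cast_pow,
      ZMod.natCast_self]⟩
  have hι : Function.Injective ι := (ZMod.lift_injective _).mpr fun m hm => by
    have : ((m * p ^ (N + 1) : ℤ) : ZMod (p ^ (N + 2))) = 0 := by simpa using hm
    rw [ZMod.intCast_zmod_eq_zero_iff_dvd, Nat.cast_pow, pow_succ'] at this
    exact (ZMod.intCast_zmod_eq_zero_iff_dvd _ _).mpr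
      (Int.dvd_of_mul_dvd_mul_right (pow_ne_zero _ (by exact_mod_cast hp.ne_zero)) this)
  refine not_lcm hA (x := ⟨1, 0, 0⟩) (y := ⟨0, 0, 1⟩) (fun h => ?_) hB (fun b hb => ?_) h1 h2
    ((h3 (Wr (ZMod (p ^ (N + 2))) (ZMod p)) (contains_iff.mpr ⟨.mk' (fun x =>
      ⟨fun i => ι (x.a * i + x.b), x.s⟩) fun x y => Wr.ext (funext fun i => ?_) rfl,
        fun x y h => ?_⟩) (contains_iff.mpr ⟨.mk' (fun x => ⟨x.toAdd, 0⟩)
          fun x y => Wr.ext (funext fun i => ?_) (add_zero _).symm,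
            fun x y h => congrArg Wr.f h⟩)).trans ?_)
  · simpa [Heis.mul_def] using h.eq
  · have (i : ZMod p) : ∃ c, p • c = b.toAdd i := by
      have h := congrFun (congrArg Multiplicative.toAdd hb) i
      obtain ⟨m, hm⟩ := ZMod.natCast_zmod_surjective (b.toAdd i)
      have : ((p * m : ℕ) : ZMod (p ^ (N + 2))) = 0 := by simpa [hm] using h
      rw [ZMod.natCast_eq_zero_iff, pow_succ'] at this
      obtain ⟨c, rfl⟩ := (dvd_pow_self p N.succ_ne_zero).trans
        (Nat.dvd_of_mul_dvd_mul_left hp.pos this)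
      exact ⟨c, by simp [← hm]⟩
    choose c hc using this
    exact ⟨.ofAdd c, funext hc⟩
  · change ι ((x.a + y.a) * i + (x.b + y.b + y.a * x.s)) =
      ι (x.a * i + x.b) + ι (y.a * (i + x.s) + y.b)
    rw [← map_add]; congr 1; ring
  · have h0 := hι (congrFun (congrArg Wr.f h) 0)
    have h1 := hι (congrFun (congrArg Wr.f h) 1)
    exact Heis.ext (by linear_combination h1 - h0) (by linear_combination h0) (congrArg Wr.s h)
  · change x.toAdd i + y.toAdd i = x.toAdd i + y.toAdd (i + 0)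
    rw [add_zero]
  rw [Nat.card_congr e, Nat.card_prod, Nat.card_zmod]
  rfl

end Pool.Agent.Results.MP_8c719a_al.Infinite
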